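import Mathlib
import Pool.Agent.HZAnn.Refl

set_option autoImplicit false

namespace Pool.Agent.Results.MP_ec77e8_gt.CotangentAnnuli

open Pool.Agent.HZAnn

/-- **Hamiltonians preserving the cotangent annulus of a closed curve.** Let `Γ` be a group of
isometries of the hyperbolic plane (for instance the group of a closed hyperbolic surface
`N = Γ \ ℍ`), let `H` with maximum `m` be admissible in the sense of the frozen statement
(so `m - H` is a slow Hamiltonian on the unit disk cotangent bundle of `N`), and let `c` be a
closed curve of length `l` on `N`. If the Hamiltonian vector field of `H` is tangent to the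
cotangent annulus `T*c`, for instance if `c` is a geodesic and `H` is invariant under the
reflection in `c`, then `m - H ≤ 2 l` on `T*c`. -/
theorem result (Γ : Subgroup (Matrix.SpecialLinearGroup (Fin 2) ℝ)) (H : ℂ × ℂ → ℝ) (m : ℝ)
    (hA : Admissible Γ H m) (c : ℝ → ℂ) (l : ℝ) (hc : ClosedCurve Γ c l)
    (hH : TangentTo H c ∨ ReflectionInvariant H c) (s r : ℝ) :
    m - H (cot c (s, r)) ≤ 2 * l :=
  annulus_bound hA hc hH (s, r)

end Pool.Agent.Results.MP_ec77e8_gt.CotangentAnnuli
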